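import Pool.Agent.TH2.NU.Near4

set_option autoImplicit false

/-!
# From `N` to `4 N` points

If for all multiplicities `m, m + 1` at `N` points and all degrees the system is empty or the
conditions are independent, then the same holds at `4 N` points.
-/

namespace Pool.Agent.TH387.BS

open Finset Pool.Agent.TH176.Nag Pool.Agent.TH603.Sur Pool.Agent.TH641.UM Pool.Agent.TH2.NU

/-- emptiness or independence in degree `d` -/
def ExM (M : Multiset ℕ) (d : ℕ) : Prop := EmpM M (TZ d) ∨ SurM M (TZ d)

theorem ExM_iff {ι : Type} [Fintype ι] {w : ι → ℕ} {M : Multiset ℕ} (h : ms w = M) (d : ℕ) :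
    ExM M d ↔ Emp w (TZ d) ∨ Sur w (TZ d) := by
  unfold ExM
  rw [EmpM_iff h, SurM_iff h]

/-- exact clusters -/
theorem RM {a b d : ℕ} (hb : 1 ≤ b) {M : Multiset ℕ} (h : ExM (a • {b} + M) d) :
    ExM (a • r4 b + M) d := by
  rcases h with h | h
  · exact Or.inl (exM' hb h)
  · exact Or.inr (exMS hb h)

theorem rv_le_qv (b : ℕ) (p : Fin 2 × Fin 2) : rv b p ≤ qv b p := by
  unfold rv qv
  have := p.1.2
  have := p.2.2
  omega

theorem qv_le_rv (b : ℕ) (p : Fin 2 × Fin 2) : qv b p ≤ rv (b + 1) p := by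
  unfold rv qv
  have := p.1.2
  have := p.2.2
  omega

theorem fam_ms {a : ℕ} (v : Fin 2 × Fin 2 → ℕ) (M : Multiset ℕ) :
    ms (Sum.elim (fun p : Fin a × (Fin 2 × Fin 2) => v p.2)
      fun i : Fin M.toList.length => M.toList.get i) = a • ms v + M := by
  rw [ms_sum, ms_prod, ms_toList]

/-- clusters `q4` -/
theorem QM {a b d : ℕ} {M : Multiset ℕ} (h1 : ExM (a • {b} + M) d) (h2 : ExM (a • {b + 1} + M) d) :
    ExM (a • q4 b + M) d := by
  rcases Nat.eq_zero_or_pos a with rfl | ha
  · simpa using h1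
  rcases h1 with h1 | h1
  · left
    rcases Nat.eq_zero_or_pos b with rfl | hb
    · refine h1.mono ?_
      have e : q4 0 = 4 • ({0} : Multiset ℕ) := by
        have h4 : ms (qv 0) = Fintype.card (Fin 2 × Fin 2) • {0} := by
          rw [← ms_const]
          congr 1
          funext p
          unfold qv
          have := p.1.2
          omega
        unfold q4
        rw [h4]
        simp
      rw [e]
      refine add_le_add_left ?_ M
      rw [smul_smul]
      exact nsmul_le_nsmul_left (Multiset.zero_le _) (by omega)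
    · have h3 := exM' hb h1
      refine (EmpM_iff (fam_ms (qv b) M) _).2 ?_
      have h4 := (EmpM_iff (fam_ms (a := a) (rv b) M) _).1 h3
      refine Emp_emb id Function.injective_id ?_ h4
      rintro (i | i)
      · exact rv_le_qv b i.2
      · exact le_refl _
  · rcases h2 with h2 | h2
    · obtain ⟨h3, h4⟩ := Sgn_dbl ha h1 h2
      rcases le_total ((d + 2).choose 2) (condM (a • q4 b + M)) with h | h
      · exact Or.inl (h3 h)
      · exact Or.inr (h4 h)
    · right
      have h3 := exMS (by omega) h2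
      refine (SurM_iff (fam_ms (qv b) M) _).2 ?_
      have h4 := (SurM_iff (fam_ms (a := a) (rv (b + 1)) M) _).1 h3
      refine Sur_anti ?_ h4
      rintro (i | i)
      · exact qv_le_rv b i.2
      · exact le_refl _

/-- near-uniform exactness at `N` points -/
def Near (N : ℕ) : Prop := ∀ (w : Fin N → ℕ) (m : ℕ), (∀ i, w i = m ∨ w i = m + 1) →
  ∀ d : ℕ, Emp w (TZ d) ∨ Sur w (TZ d)

theorem Near.ex {N : ℕ} (H : Near N) {p q : ℕ} (hpq : p + q = N) (b d : ℕ) :
    ExM (p • {b} + q • {b + 1}) d := by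
  subst hpq
  have h := H (Sum.elim (fun _ : Fin p => b) (fun _ : Fin q => b + 1) ∘ finSumFinEquiv.symm) b
    (fun i => by
      rw [Function.comp]
      rcases finSumFinEquiv.symm i with j | j
      · left; rfl
      · right; rfl) d
  refine (ExM_iff ?_ d).2 h
  have e : ms (Sum.elim (fun _ : Fin p => b) (fun _ : Fin q => b + 1) ∘ finSumFinEquiv.symm) =
      ms (Sum.elim (fun _ : Fin p => b) (fun _ : Fin q => b + 1)) := by
    unfold ms
    exact Equiv.sum_comp finSumFinEquiv.symm
      (fun i => ({Sum.elim (fun _ : Fin p => b) (fun _ : Fin q => b + 1) i} : Multiset ℕ))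
  rw [e, ms_sum, ms_fin, ms_fin]

/-- **from `N` to `4 N` points** -/
theorem Near.quad {N : ℕ} (H : Near N) : Near (4 * N) := by
  intro w m hw d
  have hlo : 4 * N * m ≤ ∑ i, w i := by
    have : 4 * N * m = ∑ _i : Fin (4 * N), m := by simp
    rw [this]
    refine sum_le_sum fun i _ => ?_
    rcases hw i with h | h <;> omega
  have hup : ∑ i, w i ≤ 4 * N * m + 4 * N := by
    have : 4 * N * m + 4 * N = ∑ _i : Fin (4 * N), (m + 1) := by simp; ring
    rw [this]
    refine sum_le_sum fun i _ => ?_
    rcases hw i with h | h <;> omega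
  obtain ⟨n1, hn1⟩ := Nat.exists_eq_add_of_le hlo
  have hn1' : n1 ≤ 4 * N := by omega
  -- the two types
  have typeI : ∀ b x0 x1 : ℕ, (b = 2 * m ∨ b = 2 * m + 1) → x0 + x1 = N →
      ∑ i, w i + x0 = N * (2 * b + 1) → Emp w (TZ d) ∨ Sur w (TZ d) := by
    intro b x0 x1 hb hx hW
    refine (ExM_iff (ms_V (x0 := x0) (x1 := x1) (x2 := 0) hw hb (by omega) (by omega)) d).1 ?_
    rw [zero_smul, add_zero]
    refine QM ?_ ?_
    · rw [add_comm]
      refine RM (by omega) ?_
      rw [add_comm]
      exact H.ex hx b d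
    · rw [add_comm]
      refine RM (by omega) ?_
      have := H.ex (p := N) (q := 0) (by omega) (b + 1) d
      rw [zero_smul, add_zero, ← hx, add_comm x0 x1, add_smul] at this
      exact this
  have typeII : ∀ b x1 x2 : ℕ, (b = 2 * m ∨ b = 2 * m + 1) → x1 + x2 = N →
      ∑ i, w i = N * (2 * b + 1) + x2 → Emp w (TZ d) ∨ Sur w (TZ d) := by
    intro b x1 x2 hb hx hW
    refine (ExM_iff (ms_V (x0 := 0) (x1 := x1) (x2 := x2) hw hb (by omega) (by omega)) d).1 ?_
    rw [zero_smul, zero_add, add_comm]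
    refine QM ?_ ?_
    · rw [add_comm]
      refine RM (by omega) ?_
      have := H.ex (p := N) (q := 0) (by omega) (b + 1) d
      rw [zero_smul, add_zero, ← hx, add_smul] at this
      exact this
    · rw [add_comm]
      refine RM (by omega) ?_
      exact H.ex hx (b + 1) d
  rcases le_total n1 N with h1 | h1
  · refine typeI (2 * m) (N - n1) n1 (Or.inl rfl) (by omega) ?_
    rw [hn1]
    have : N * (2 * (2 * m) + 1) = 4 * N * m + N := by ring
    omega
  rcases le_total n1 (2 * N) with h2 | h2
  · refine typeII (2 * m) (2 * N - n1) (n1 - N) (Or.inl rfl) (by omega) ?_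
    rw [hn1]
    have : N * (2 * (2 * m) + 1) = 4 * N * m + N := by ring
    omega
  rcases le_total n1 (3 * N) with h3 | h3
  · refine typeI (2 * m + 1) (3 * N - n1) (n1 - 2 * N) (Or.inr rfl) (by omega) ?_
    rw [hn1]
    have : N * (2 * (2 * m + 1) + 1) = 4 * N * m + 3 * N := by ring
    omega
  · refine typeII (2 * m + 1) (4 * N - n1) (n1 - 3 * N) (Or.inr rfl) (by omega) ?_
    rw [hn1]
    have : N * (2 * (2 * m + 1) + 1) = 4 * N * m + 3 * N := by ring
    omega

end Pool.Agent.TH387.BS
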