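import Pool.Agent.TH387.BS.Dich
import Pool.Agent.TH387.BS.Quad
import Pool.Agent.TH759.EV.NDich

set_option autoImplicit false

/-! Near-uniform exactness at `4 ^ k N` points, `N = 4, 9, 13`. -/

namespace Pool.Agent.TH387.BS

open Finset Pool.Agent.TH176.Nag Pool.Agent.TH603.Sur

theorem near_four : Near 4 := fun _ _ hw d => dich4 hw d

theorem near_nine : Near 9 := fun _ _ hw d => dich9 hw d

theorem near_thirteen : Near 13 := by
  intro w m hw d
  by_cases h : ∃ i0, w i0 = m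
  · obtain ⟨i0, h0⟩ := h
    exact Pool.Agent.TH759.EV.dich_near hw h0 d
  · push Not at h
    have h1 : ∀ i, w i = m + 1 := fun i => by
      rcases hw i with h2 | h2
      · exact absurd h2 (h i)
      · exact h2
    exact Pool.Agent.TH759.EV.dich_near (m := m + 1) (fun i => Or.inl (h1 i)) (h1 0) d

theorem Near.pow {N : ℕ} (H : Near N) (k : ℕ) : Near (4 ^ k * N) := by
  induction k with
  | zero => rw [pow_zero, one_mul]; exact H
  | succ k ih =>
    have e : 4 ^ (k + 1) * N = 4 * (4 ^ k * N) := by ring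
    rw [e]
    exact ih.quad

/-- one nonempty open set for all degrees -/
theorem Near.expDim {N : ℕ} (H : Near N) {m : ℕ} {w : Fin N → ℕ} (hw : ∀ i, w i = m ∨ w i = m + 1) :
    ∃ F : MvPolynomial (Fin N × Fin 2) ℚ, F ≠ 0 ∧ ∀ {L : Type} [Field L] [CharZero L]
      (P : Fin N → Fin 2 → L), MvPolynomial.aeval (fun ij : Fin N × Fin 2 => P ij.1 ij.2) F ≠ 0 →
      ∀ d, Pool.Agent.H932R3.ExpDim L w P d :=
  Pool.Agent.TH864.SX.expDim_of_or fun d => H w m hw d

/-- near-uniform vectors at `4 ^ k N` points, `N = 4, 9, 13`, every degree -/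
theorem expDim_pow {N : ℕ} (hN : N = 4 ∨ N = 9 ∨ N = 13) (k : ℕ) {m : ℕ} {w : Fin (4 ^ k * N) → ℕ}
    (hw : ∀ i, w i = m ∨ w i = m + 1) :
    ∃ F : MvPolynomial (Fin (4 ^ k * N) × Fin 2) ℚ, F ≠ 0 ∧ ∀ {L : Type} [Field L] [CharZero L]
      (P : Fin (4 ^ k * N) → Fin 2 → L),
      MvPolynomial.aeval (fun ij : Fin (4 ^ k * N) × Fin 2 => P ij.1 ij.2) F ≠ 0 →
      ∀ d, Pool.Agent.H932R3.ExpDim L w P d := by
  have H : Near (4 ^ k * N) := by
    rcases hN with rfl | rfl | rfl
    · exact near_four.pow k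
    · exact near_nine.pow k
    · exact near_thirteen.pow k
  exact H.expDim hw

end Pool.Agent.TH387.BS
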